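import Pool.Agent.Helper686_FJ.Or10

/-!
# Orthogonal groups of Witt index at most one over polynomial rings and graded rings

`C` is any class of groups with the closure properties `ClosedE C` which contains the groups `F ⋊ ℤ` for
all free groups `F` and all solvable groups. All this is published for the class of groups which satisfy
the Full Farrell-Jones Conjecture, which includes the assertion of the question.

For a symmetric matrix `B` over a commutative ring `R` let `O(B)(R)` be the group of all invertible
matrices over `R` which preserve the bilinear form of `B`.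

Let `R` be a domain in which `2 ≠ 0` and `B` a symmetric matrix over `R` with `det B ≠ 0`, such that any
two orthogonal isotropic vectors are proportional, that is, the Witt index of `B` over the field of
fractions is at most one. Let `R[σ]` be the polynomial ring in any set `σ` of variables.

1. If `H` is a subgroup of `O(B)(R)` which is in `C`, then the preimage of `H` in `O(B)(R[σ])` under the
   homomorphism which maps the variables to `0` is in `C`. In particular, the congruence subgroup
   `{g ∈ O(B)(R[σ]) | g(0) = 1}` is always in `C`.
2. `O(B)(R[σ])` is in `C` if and only if `O(B)(R)` is in `C`.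
3. In particular, this holds for the Lorentz forms `- x₀² + x₁² + ... + xₙ²` over all ordered rings `R`. For
   instance, the groups `O(n, 1)(ℤ[x₁, ..., x_m])` are in `C` if the arithmetic groups `O(n, 1)(ℤ)` are.
4. More generally, let `A = A₀ ⊕ A₁ ⊕ ...` be a graded domain and `B` a matrix over `A₀` which satisfies the
   conditions above over `A`. If `H` is a subgroup of `O(B)(A₀)` which is in `C`, then the preimage of `H` in
   `O(B)(A)` under `A → A₀` is in `C`. The group `O(B)(A)` is in `C` if and only if `O(B)(A₀)` is.

Outline of the proof. Let `K` be the field of fractions of `R`. For an isotropic vector `e` over `K` let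
`U e` be the group of the Eichler transformations
`x ↦ x + b(x, e) v - b(x, v) e - (1/2) b(v, v) b(x, e) e`, where `v` is a vector over `X K[X]` which is
orthogonal to `e`. It is abelian and depends only on the line of `e`.

* Such a transformation, if it is not trivial, maps every polynomial vector whose leading vector is
  isotropic and not on the line of `e` to a vector of higher degree whose leading vector is on the line of
  `e`, because `e^⊥ / e` is anisotropic. So the subgroups `U e` generate their free product `N`.
* An isotropic vector of positive degree over `K[X]` with leading vector `e` which is not a multiple of a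
  constant vector is mapped by an element of `U e` to a vector of lower degree. It follows that `N` is
  the kernel of `O(B)(K[X]) → O(B)(K)`, `X ↦ 0`.
* `O(B)(R[X])` is contained in the product of `N` and `O(B)(R)`, and `O(B)(R)` permutes the factors of `N` by
  conjugation. The theorem on extensions with kernel a free product (starting file
  `FreeProductExtensions`) applies.
* The condition on the Witt index passes from `R` to `R[X]`. For several variables use induction and
  directed unions. A graded domain `A` is embedded in `A[X]` by `a ↦ a X ^ d` for `a` of degree `d`; apply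
  the theorem to `A[X]` and the image of `H` in `O(B)(A)`.
-/

set_option autoImplicit false

namespace Pool.Agent.Results.MP_f7db47_al.OrthogonalGroups

open Pool.Agent.Helper686_FJ.Orth Pool.Agent.Y110.FJ
open Pool.Agent.R684.FP (FbC)
open Pool.Agent.H694.TR (Sol)

/-- The group of the invertible matrices which preserve the form `B` is in `C`. -/
def OIn (C : ∀ (G : Type) [Group G], Prop) {R ι : Type} [CommRing R] [Fintype ι] [DecidableEq ι]
    (B : Matrix ι ι R) : Prop := C (OO B)

/-- the form `B` over the polynomial ring in the variables `σ` -/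
noncomputable def mvB {R ι : Type} [CommRing R] (σ : Type) (B : Matrix ι ι R) :
    Matrix ι ι (MvPolynomial σ R) := B.map MvPolynomial.C

/-- The preimage of the subgroup `H` in the group of the form `B` over the polynomial ring, under the
homomorphism which maps the variables to `0`, is in `C`. -/
def PreIn (C : ∀ (G : Type) [Group G], Prop) {R ι : Type} [CommRing R] [Fintype ι] [DecidableEq ι]
    (σ : Type) (B : Matrix ι ι R) (H : Subgroup (Matrix ι ι R)ˣ) : Prop :=
  C (Pre MvPolynomial.constantCoeff (mvB σ B) H)

/-- the ring of the elements of degree `0` of a graded ring -/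
def Deg0 {A : Type} [CommRing A] (𝒜 : ℕ → AddSubgroup A) : Type := 𝒜 0

noncomputable instance instDeg0 {A : Type} [CommRing A] (𝒜 : ℕ → AddSubgroup A) [GradedRing 𝒜] :
    CommRing (Deg0 𝒜) := inferInstanceAs (CommRing (𝒜 0))

/-- the homomorphism of a graded ring to the ring of the elements of degree `0` -/
noncomputable def proj0 {A : Type} [CommRing A] (𝒜 : ℕ → AddSubgroup A) [GradedRing 𝒜] :
    A →+* Deg0 𝒜 := GradedRing.projZeroRingHom' 𝒜

/-- the form over the graded ring given by a form over the ring of the elements of degree `0` -/
def grB {A ι : Type} [CommRing A] (𝒜 : ℕ → AddSubgroup A) (B : Matrix ι ι (Deg0 𝒜)) :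
    Matrix ι ι A := B.map (fun a : 𝒜 0 => (a : A))

/-- The preimage of the subgroup `H` of the group of the form `B` over `A₀` in the group of `B` over the
graded ring `A`, under the homomorphism `A → A₀`, is in `C`. -/
def GIn (C : ∀ (G : Type) [Group G], Prop) {A ι : Type} [CommRing A] [Fintype ι] [DecidableEq ι]
    (𝒜 : ℕ → AddSubgroup A) [GradedRing 𝒜] (B : Matrix ι ι (Deg0 𝒜))
    (H : Subgroup (Matrix ι ι (Deg0 𝒜))ˣ) : Prop :=
  C (Pre (proj0 𝒜) (grB 𝒜 B) H)

/-- the hypotheses on the form: symmetric, non-degenerate, Witt index at most one -/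
structure Form {R ι : Type} [CommRing R] [Fintype ι] [DecidableEq ι] (B : Matrix ι ι R) : Prop where
  symm : B.transpose = B
  two : (2 : R) ≠ 0
  det : B.det ≠ 0
  witt : WR B

theorem result (C : ∀ (G : Type) [Group G], Prop) (hC : ClosedE C) (hF : FbC C) (hS : Sol C) :
    (∀ (R ι σ : Type) [CommRing R] [IsDomain R] [Fintype ι] [DecidableEq ι] (B : Matrix ι ι R),
      Form B → (∀ H ≤ OO B, C H → PreIn C σ B H) ∧ (OIn C (mvB σ B) ↔ OIn C B)) ∧
    (∀ (R σ : Type) [CommRing R] [LinearOrder R] [IsStrictOrderedRing R] (n : ℕ),
      Form (lor R n) ∧ (OIn C (lor (MvPolynomial σ R) n) ↔ OIn C (lor R n))) ∧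
    (∀ (A ι : Type) [CommRing A] [IsDomain A] [Fintype ι] [DecidableEq ι] (𝒜 : ℕ → AddSubgroup A)
      [GradedRing 𝒜] (B : Matrix ι ι (Deg0 𝒜)), Form (grB 𝒜 B) →
        (∀ H ≤ OO B, C H → GIn C 𝒜 B H) ∧ (OIn C (grB 𝒜 B) ↔ OIn C B)) := by
  have h1 : ∀ (R ι σ : Type) [CommRing R] [IsDomain R] [Fintype ι] [DecidableEq ι]
      (B : Matrix ι ι R), Form B →
      (∀ H ≤ OO B, C H → PreIn C σ B H) ∧ (OIn C (mvB σ B) ↔ OIn C B) :=
    fun R ι σ _ _ _ _ B hB => ⟨fun H hH h => mv_rel hC hF hS hB.two B hB.symm hB.det hB.witt σ H hH h,
      mv_iff hC hF hS hB.two B hB.symm hB.det hB.witt σ⟩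
  refine ⟨h1, fun R σ _ _ _ n => ?_, fun A ι _ _ _ _ 𝒜 _ B hB =>
    ⟨fun H hH h => gr_rel 𝒜 hC hF hS hB.two B hB.symm hB.det hB.witt H hH h,
      gr_iff 𝒜 hC hF hS hB.two B hB.symm hB.det hB.witt⟩⟩
  have : IsDomain R := IsStrictOrderedRing.isDomain
  have hf : Form (lor R n) := ⟨lor_symm R n, two_ne_zero, lor_det R n, lor_WR R n⟩
  refine ⟨hf, ?_⟩
  have h3 := (h1 R (Fin (n + 1)) σ (lor R n) hf).2
  have h4 : mvB σ (lor R n) = lor (MvPolynomial σ R) n := by
    unfold mvB lor
    rw [Matrix.diagonal_map (map_zero _)]
    congr 1
    funext i
    split_ifs <;> simp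
  rwa [h4] at h3

end Pool.Agent.Results.MP_f7db47_al.OrthogonalGroups
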